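import Pool.Agent.N822.TO.Stm

/-! Project TO (helper822): the Moran set is compact and has positive measure (S_POS). -/

set_option autoImplicit false

namespace Pool.Agent.N296.TO

open MeasureTheory Filter Topology
open Pool.Agent.N822.TO

variable {D : ℕ} {m : ℕ → ℕ}

theorem q_succ (m : ℕ → ℕ) (k : ℕ) : q m (k + 1) = q m k * m k := by
  unfold q
  rw [Finset.prod_range_succ]

theorem q_zero (m : ℕ → ℕ) : q m 0 = 1 := by simp [q]

theorem q_ge (hm : ∀ k, 2 ≤ m k) (k : ℕ) : 2 ^ k ≤ q m k := by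
  induction k with
  | zero => simp [q]
  | succ k ih =>
    rw [q_succ, pow_succ]
    exact Nat.mul_le_mul ih (hm k)

theorem q_pos (hm : ∀ k, 2 ≤ m k) (k : ℕ) : 0 < (q m k : ℝ) := by
  have h1 := q_ge hm k
  have h2 : 0 < 2 ^ k := by positivity
  exact_mod_cast lt_of_lt_of_le h2 h1

theorem inv_q_le (hm : ∀ k, 2 ≤ m k) (k : ℕ) : 1 / (q m k : ℝ) ≤ (1 / 2) ^ k := by
  have h1 : (2 : ℝ) ^ k ≤ (q m k : ℝ) := by exact_mod_cast q_ge hm k
  rw [one_div, one_div, inv_pow]
  exact inv_anti₀ (by positivity) h1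

theorem pt_nonneg (m' : ℕ) (f : (Fin D → Fin m') → Fin m') (i : Fin D → Fin m')
    (t : Fin (D + 1)) : 0 ≤ pt f i t := by
  refine Fin.cases ?_ (fun s => ?_) t
  · simp [pt]
  · simp [pt]

theorem pt_le (m' : ℕ) (f : (Fin D → Fin m') → Fin m') (i : Fin D → Fin m')
    (t : Fin (D + 1)) : pt f i t ≤ (m' : ℝ) := by
  refine Fin.cases ?_ (fun s => ?_) t
  · simp only [pt, Fin.cons_zero]
    exact_mod_cast (f i).isLt.le
  · simp only [pt, Fin.cons_succ]
    exact_mod_cast (i s).isLt.le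

theorem term_bound (hm : ∀ k, 2 ≤ m k) (f : (k : ℕ) → (Fin D → Fin (m k)) → Fin (m k))
    (k : ℕ) (b : Fin D → Fin (m k)) (t : Fin (D + 1)) :
    ‖pt (f k) b t / (q m (k + 1) : ℝ)‖ ≤ (1 / 2) ^ k := by
  have h0 := q_pos hm k
  have h1 := q_pos hm (k + 1)
  rw [Real.norm_of_nonneg (div_nonneg (pt_nonneg _ _ _ _) h1.le)]
  refine le_trans ?_ (inv_q_le hm k)
  have hmk : (0 : ℝ) < m k := by
    have := hm k
    exact_mod_cast (by omega : 0 < m k)
  rw [q_succ, div_le_div_iff₀ (by rw [Nat.cast_mul]; positivity) h0, Nat.cast_mul]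
  have := pt_le _ (f k) b t
  nlinarith

theorem summ_geo : Summable (fun k : ℕ => ((1 / 2 : ℝ)) ^ k) :=
  summable_geometric_of_lt_one (by norm_num) (by norm_num)

theorem cont_phi (hm : ∀ k, 2 ≤ m k) (f : (k : ℕ) → (Fin D → Fin (m k)) → Fin (m k)) :
    Continuous (phi f) := by
  unfold phi
  refine (PiLp.continuous_toLp 2 _).comp (continuous_pi fun t => ?_)
  refine continuous_tsum (u := fun k => (1 / 2 : ℝ) ^ k) (fun k => ?_) summ_geo
    (fun k a => term_bound hm f k (a k) t)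
  exact (continuous_of_discreteTopology
    (f := fun b : Fin D → Fin (m k) => pt (f k) b t / (q m (k + 1) : ℝ))).comp (continuous_apply k)

/-- the digits of `y` -/
noncomputable def N (m : ℕ → ℕ) (y : ℝ) (k : ℕ) : ℕ := ⌊y * (q m k : ℝ)⌋₊

theorem N_le (hm : ∀ k, 2 ≤ m k) {y : ℝ} (hy : 0 ≤ y) (k : ℕ) :
    (N m y k : ℝ) ≤ y * q m k := Nat.floor_le (mul_nonneg hy (q_pos hm k).le)

theorem lt_N {y : ℝ} (k : ℕ) : y * q m k < (N m y k : ℝ) + 1 := Nat.lt_floor_add_one _

theorem N_step1 (hm : ∀ k, 2 ≤ m k) {y : ℝ} (hy : 0 ≤ y) (k : ℕ) :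
    m k * N m y k ≤ N m y (k + 1) := by
  unfold N
  apply Nat.le_floor
  have h := N_le (m := m) hm hy k
  rw [q_succ]
  push_cast
  have hmk : (0 : ℝ) ≤ m k := Nat.cast_nonneg _
  unfold N at h
  nlinarith

theorem N_step2 (hm : ∀ k, 2 ≤ m k) {y : ℝ} (hy : 0 ≤ y) (k : ℕ) :
    N m y (k + 1) < m k * N m y k + m k := by
  have h1 := N_le (m := m) hm hy (k + 1)
  have h2 := lt_N (m := m) (y := y) k
  have hmk : (0 : ℝ) < m k := by
    have := hm k
    exact_mod_cast (by omega : 0 < m k)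
  have h3 : (N m y (k + 1) : ℝ) < m k * N m y k + m k := by
    refine lt_of_le_of_lt h1 ?_
    rw [q_succ]
    push_cast
    nlinarith
  exact_mod_cast h3

theorem digit_tsum (hm : ∀ k, 2 ≤ m k) {y : ℝ} (hy : 0 ≤ y) (hy1 : y < 1) (a : ℕ → ℕ)
    (ha : ∀ k, N m y (k + 1) = m k * N m y k + a k) (hlt : ∀ k, a k < m k) :
    ∑' k, (a k : ℝ) / (q m (k + 1) : ℝ) = y := by
  have hs : Summable (fun k => (a k : ℝ) / (q m (k + 1) : ℝ)) := by
    refine Summable.of_norm_bounded (g := fun k => (1 / 2 : ℝ) ^ k) summ_geo (fun k => ?_)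
    have h0 := q_pos hm k
    have h1 := q_pos hm (k + 1)
    rw [Real.norm_of_nonneg (div_nonneg (Nat.cast_nonneg _) h1.le)]
    refine le_trans ?_ (inv_q_le hm k)
    have hmk : (0 : ℝ) < m k := by
      have := hm k
      exact_mod_cast (by omega : 0 < m k)
    rw [q_succ, div_le_div_iff₀ (by rw [Nat.cast_mul]; positivity) h0, Nat.cast_mul]
    have : (a k : ℝ) ≤ m k := by exact_mod_cast (hlt k).le
    nlinarith
  have hp : ∀ n, ∑ k ∈ Finset.range n, (a k : ℝ) / (q m (k + 1) : ℝ) =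
      (N m y n : ℝ) / (q m n : ℝ) := by
    intro n
    induction n with
    | zero =>
      have : N m y 0 = 0 := by
        unfold N
        rw [q_zero, Nat.cast_one, mul_one]
        exact Nat.floor_eq_zero.2 hy1
      rw [this]
      simp
    | succ n ih =>
      rw [Finset.sum_range_succ, ih, ha n, q_succ]
      have h0 := (q_pos hm n).ne'
      have hmk : (m n : ℝ) ≠ 0 := by
        have := hm n
        exact_mod_cast (by omega : m n ≠ 0)
      push_cast
      field_simp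
  have ht := hs.hasSum.tendsto_sum_nat
  have ht2 : Tendsto (fun n => ∑ k ∈ Finset.range n, (a k : ℝ) / (q m (k + 1) : ℝ)) atTop (𝓝 y) := by
    rw [tendsto_iff_dist_tendsto_zero]
    refine squeeze_zero (fun n => dist_nonneg) (fun n => ?_)
      (tendsto_pow_atTop_nhds_zero_of_lt_one (r := (1 / 2 : ℝ)) (by norm_num) (by norm_num))
    rw [hp n, Real.dist_eq]
    refine le_trans ?_ (inv_q_le hm n)
    have h0 := q_pos hm n
    have h1 := N_le (m := m) hm hy n
    have h2 := lt_N (m := m) (y := y) n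
    have e : (N m y n : ℝ) / (q m n : ℝ) - y = ((N m y n : ℝ) - y * q m n) / q m n := by
      field_simp
    rw [e, abs_div, abs_of_pos h0, div_le_div_iff_of_pos_right h0, abs_le]
    constructor <;> linarith
  exact tendsto_nhds_unique ht ht2

theorem cube_sub (hm : ∀ k, 2 ≤ m k) (f : (k : ℕ) → (Fin D → Fin (m k)) → Fin (m k)) :
    (Set.pi Set.univ fun _ : Fin D => Set.Ico (0 : ℝ) 1) ⊆
      (fun (x : E (D + 1)) (t : Fin D) => x t.succ) '' Kset f := by
  intro y hy
  have hy0 : ∀ t, 0 ≤ y t := fun t => (hy t (Set.mem_univ _)).1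
  have hy1 : ∀ t, y t < 1 := fun t => (hy t (Set.mem_univ _)).2
  let a : Dig D m := fun k t => ⟨N m (y t) (k + 1) - m k * N m (y t) k, by
    have h1 := N_step1 hm (hy0 t) k
    have h2 := N_step2 hm (hy0 t) k
    omega⟩
  refine ⟨phi f a, ⟨a, rfl⟩, ?_⟩
  funext t
  show ∑' k, pt (f k) (a k) t.succ / (q m (k + 1) : ℝ) = y t
  have e : ∀ k, pt (f k) (a k) t.succ = ((a k t : ℕ) : ℝ) := by
    intro k
    simp [pt]
  simp only [e]
  refine digit_tsum hm (hy0 t) (hy1 t) (fun k => (a k t : ℕ)) (fun k => ?_) (fun k => (a k t).isLt)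
  have h1 := N_step1 hm (hy0 t) k
  show N m (y t) (k + 1) = m k * N m (y t) k + (N m (y t) (k + 1) - m k * N m (y t) k)
  omega

theorem lip_proj : LipschitzWith 1 (fun (x : E (D + 1)) (t : Fin D) => x t.succ) := by
  refine LipschitzWith.of_dist_le_mul fun x y => ?_
  rw [NNReal.coe_one, one_mul, dist_pi_le_iff dist_nonneg]
  intro t
  rw [dist_eq_norm, dist_eq_norm]
  exact PiLp.norm_apply_le (x - y) t.succ

/-- **POS** -/
theorem t_POS : S_POS := by
  intro D m f hD hm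
  refine ⟨isCompact_range (cont_phi hm f), ?_⟩
  have h1 := (lip_proj (D := D)).hausdorffMeasure_image_le (d := (D : ℝ)) (Nat.cast_nonneg _)
    (Kset f)
  rw [ENNReal.coe_one, ENNReal.one_rpow, one_mul] at h1
  refine lt_of_lt_of_le ?_ h1
  have h2 : (Measure.hausdorffMeasure (D : ℝ) : Measure (Fin D → ℝ)) = volume := by
    have := MeasureTheory.hausdorffMeasure_pi_real (ι := Fin D)
    rwa [Fintype.card_fin] at this
  rw [h2]
  refine lt_of_lt_of_le ?_ (measure_mono (cube_sub hm f))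
  rw [Real.volume_pi_Ico]
  simp

end Pool.Agent.N296.TO
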